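import Mathlib
import Pool.Agent.H32.UFB

open Set Filter Function

namespace Pool.Agent.Results.MP_55c7a7_lc.Free

open Pool.Agent.H32 UFA UFB

def RKLe (u v : Ultrafilter ℕ) : Prop := ∃ f : ℕ → ℕ, u = v.map f

def WeakP (u : Ultrafilter ℕ) : Prop := (∀ n : ℕ, u ≠ pure n) ∧
  ∀ D : Set (Ultrafilter ℕ), D.Countable → (∀ v ∈ D, (∀ n : ℕ, v ≠ pure n) ∧ v ≠ u) →
    u ∉ closure D

/-- the tensor product, moved to `ℕ` along `Nat.pair` -/
def tensor (u v : Ultrafilter ℕ) : Ultrafilter ℕ := u.bind fun i => v.map (Nat.pair i)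

/-- `word a [b, c, …] = a ⊗ (b ⊗ (c ⊗ ⋯))` -/
def word : Ultrafilter ℕ → List (Ultrafilter ℕ) → Ultrafilter ℕ
  | a, [] => a
  | a, b :: l => tensor a (word b l)

lemma step {a b : UF} {g p : ℕ → UF} {ρ τ : ℕ → ℕ} {N J : Set ℕ} (ha : NP a) (hb : WeakP b)
    (e : a.bind g = b.bind p) (hN : N ∈ a) (hJ : J ∈ b) (h1 : ∀ n ∈ N, (g n).map ρ = pure n)
    (h2 : ∀ j ∈ J, (p j).map τ = pure j) (h : ∀ n ∈ N, ∀ S ∈ g n, ∃ j ∈ J, S ∈ p j) :
    RK b a ∧ ∃ n ∈ N, ∃ j ∈ J, g n = p j := by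
  choose! c c1 c2 using fun n hn => closure_lemma (h n hn)
  have m : ∀ {v : UF}, J ∈ v → (v.bind p).map τ = v := fun k =>
    map_bind_part (mem_of_superset k h2)
  have e1 : b = a.bind c := by
    rw [← m hJ, ← e, UFA.map_bind]
    exact UFA.bind_congr (mem_of_superset hN fun n hn => by
      simp only [mem_ofPred_eq]
      rw [c2 n hn, m (c1 n hn)])
  rcases a.mem_or_compl_mem {n | ∃ j, c n = pure j} with k | k
  · choose! t ht using fun n (hn : n ∈ {n | ∃ j, c n = pure j}) => hn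
    obtain ⟨n, n1, n2⟩ := Ultrafilter.nonempty_of_mem (inter_mem hN k)
    refine ⟨⟨t, ?_⟩, n, n1, t n, by simpa [ht n n2] using c1 n n1, by rw [c2 n n1, ht n n2]; rfl⟩
    rw [e1, ← bind_pure']
    exact UFA.bind_congr (mem_of_superset k fun n hn => (ht n hn).symm)
  exfalso
  rcases a.mem_or_compl_mem {n | c n = b} with l | l
  · obtain ⟨n, n1, n2⟩ := Ultrafilter.nonempty_of_mem (inter_mem hN l)
    obtain ⟨n', ⟨n3, n4⟩, n5⟩ := Ultrafilter.nonempty_of_mem (inter_mem (inter_mem hN l) (ha.ne n))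
    refine n5 (Ultrafilter.pure_injective ?_)
    rw [← h1 n n1, ← h1 n' n3, c2 n n1, c2 n' n3, n2, n4]
  · refine hb.2 (c '' ({n | ∃ j, c n = pure j}ᶜ ∩ {n | c n = b}ᶜ)) (to_countable _ |>.image _) ?_
      (mem_closure_of_tendsto (show Tendsto c a (nhds b) from e1 ▸ tendsto_bind a c)
        (mem_of_superset (inter_mem k l) fun n hn => mem_image_of_mem c hn))
    rintro _ ⟨n, ⟨n1, n2⟩, rfl⟩
    exact ⟨fun j hj => n1 ⟨j, hj⟩, n2⟩

lemma comp {a b : UF} {g p : ℕ → UF} {ρ τ : ℕ → ℕ} {N : Set ℕ} (ha : WeakP a) (hb : WeakP b)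
    (e : a.bind g = b.bind p) (hN : N ∈ a) (h1 : ∀ n ∈ N, (g n).map ρ = pure n)
    (h2 : ∀ j, (p j).map τ = pure j) :
    (RK b a ∨ RK a b) ∧ ∃ n ∈ N, ∃ j, g n = p j := by
  rcases a.mem_or_compl_mem {n | ∀ S ∈ g n, ∃ j ∈ univ, S ∈ p j} with k | k
  · obtain ⟨r, n, n1, j, -, j1⟩ := step ha.1 hb e (inter_mem hN k) univ_mem
      (fun n hn => h1 n hn.1) (fun j _ => h2 j) fun n hn => hn.2
    exact ⟨.inl r, n, n1.1, j, j1⟩
  rcases b.mem_or_compl_mem {j | ∀ S ∈ p j, ∃ n ∈ N, S ∈ g n} with l | l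
  · obtain ⟨r, j, -, n, n1, j1⟩ := step hb.1 ha e.symm l hN (fun j _ => h2 j) h1 fun n hn => hn
    exact ⟨.inr r, n, n1, j, j1.symm⟩
  refine (separation (inter_mem hN k) l (fun n hn => ?_) (fun j hj => ?_) e).elim
  · by_contra! q
    exact hn.2 fun S hS => let ⟨j, _, h⟩ := q S hS; ⟨j, trivial, h⟩
  · by_contra! q
    exact hj fun S hS => let ⟨n, h, h'⟩ := q S hS; ⟨n, h.1, h'⟩

lemma cancel {a b x y : UF} (ha : WeakP a) (hb : WeakP b) (h : RK (tens a x) (tens b y))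
    (h' : RK (tens b y) (tens a x)) : (RK b a ∨ RK a b) ∧ RK x y ∧ RK y x := by
  obtain ⟨ψ, hψ⟩ := h
  obtain ⟨φ, hφ⟩ := h'
  have k := katetov (u := tens a x) (f := ψ ∘ φ) (by rw [← Ultrafilter.map_map, hφ, hψ])
  have m : ∀ n ∈ {n | {k | (ψ ∘ φ) k = k} ∈ x.map (Nat.pair n)},
      ((x.map (Nat.pair n)).map φ).map ψ = x.map (Nat.pair n) := fun n hn =>
    (map_congr (v := x.map (Nat.pair n)) (f := ψ ∘ φ) (f' := id) hn).trans rfl
  obtain ⟨r, n, n1, j, e⟩ := comp (g := fun n => (x.map (Nat.pair n)).map φ)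
    (ρ := (fun k => k.unpair.1) ∘ ψ) ha hb hφ k
    (fun n hn => by rw [← Ultrafilter.map_map, m n hn, col_fst]) (col_fst y)
  refine ⟨r, ⟨(fun k => k.unpair.2) ∘ ψ ∘ Nat.pair j, ?_⟩, (fun k => k.unpair.2) ∘ φ ∘ Nat.pair n, ?_⟩
  · rw [← Ultrafilter.map_map, ← Ultrafilter.map_map, ← e, m n n1, col_snd]
  · rw [← Ultrafilter.map_map, ← Ultrafilter.map_map, e, col_snd]

lemma tens_mono (a : UF) {x y : UF} (h : RK x y) : RK (tens a x) (tens a y) := by
  obtain ⟨f, rfl⟩ := h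
  refine ⟨fun k => Nat.pair k.unpair.1 (f k.unpair.2), ?_⟩
  rw [tens, UFA.map_bind]
  refine UFA.bind_congr (univ_mem' fun n => ?_)
  simp only [mem_ofPred_eq, Ultrafilter.map_map]
  exact map_congr (univ_mem' fun k => by simp)

def W : List UF → UF
  | [] => pure 0
  | a :: l => tens a (W l)

lemma word_W (a : UF) (l : List UF) : RK (word a l) (W (a :: l)) ∧ RK (W (a :: l)) (word a l) := by
  induction l generalizing a with
  | nil => exact ⟨⟨_, tens_fst _ _⟩, fun n => Nat.pair n 0, rfl⟩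
  | cons b l ih => exact ⟨tens_mono a (ih b).1, tens_mono a (ih b).2⟩

theorem result (A : Set (Ultrafilter ℕ)) (hA : ∀ u ∈ A, WeakP u)
    (hinc : ∀ u ∈ A, ∀ v ∈ A, u ≠ v → ¬ RKLe u v) (a b : Ultrafilter ℕ)
    (l m : List (Ultrafilter ℕ)) (hl : ∀ x ∈ a :: l, x ∈ A) (hm : ∀ x ∈ b :: m, x ∈ A)
    (h : RKLe (word a l) (word b m) ∧ RKLe (word b m) (word a l)) : a :: l = b :: m := by
  have r : ∀ {u v}, RKLe u v ↔ RK u v := exists_congr fun _ => eq_comm
  have key : ∀ l m : List UF, (∀ x ∈ l, x ∈ A) → (∀ x ∈ m, x ∈ A) → RK (W l) (W m) →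
      RK (W m) (W l) → l = m := by
    intro l
    induction l with
    | nil =>
      rintro (_ | ⟨b, m⟩) _ hm _ k
      exacts [rfl, ((tens_np (hA b (hm b (by simp))).1 _).of_RK k 0 rfl).elim]
    | cons a l ih =>
      rintro (_ | ⟨b, m⟩) hl hm k k'
      · exact ((tens_np (hA a (hl a (by simp))).1 _).of_RK k 0 rfl).elim
      · have a1 := hl a (by simp)
        have b1 := hm b (by simp)
        obtain ⟨r1, r2, r3⟩ := cancel (hA a a1) (hA b b1) k k'
        rw [ih m (fun x hx => hl x (by simp [hx])) (fun x hx => hm x (by simp [hx])) r2 r3]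
        by_contra q
        have : a ≠ b := fun e => q (by rw [e])
        exact r1.elim (fun s => hinc b b1 a a1 this.symm (r.2 s)) fun s =>
          hinc a a1 b b1 this (r.2 s)
  exact key _ _ hl hm (((word_W a l).2.trans (r.1 h.1)).trans (word_W b m).1)
    (((word_W b m).2.trans (r.1 h.2)).trans (word_W a l).1)

end Pool.Agent.Results.MP_55c7a7_lc.Free
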